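import Pool.Agent.W97.V20.Stm
import Pool.Agent.W97.TW.DimOne

/-!
`dim S_2(Γ_0(20)) ≤ 1`.
-/

set_option autoImplicit false

open UpperHalfPlane MatrixGroups CongruenceSubgroup Filter Topology Asymptotics
open scoped ModularForm Pointwise

namespace Pool.Agent.W247.V20

open Pool.Agent.W97.TW
open Pool.Agent.W97.V20 (gg S_DIM)

/-- `η(2z)² η(10z)²` -/
noncomputable def e20 (z : ℍ) : ℂ := gg (2 * z)

lemma e20_eq (z : ℍ) : e20 z = G (2 * z) * G (10 * z) := by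
  unfold e20 gg G
  rw [show (5 : ℂ) * (2 * (z : ℂ)) = 10 * z by ring]

lemma e20_ne (z : ℍ) : e20 z ≠ 0 := by
  rw [e20_eq]
  unfold G
  refine mul_ne_zero (pow_ne_zero _ (ModularForm.eta_ne_zero ?_))
    (pow_ne_zero _ (ModularForm.eta_ne_zero ?_))
  · exact im_mul_nat z.im_pos (n := 2) (by norm_num)
  · exact im_mul_nat z.im_pos (n := 10) (by norm_num)

lemma kapa3 : ∀ a b c d : ZMod 3, a * d - b * (20 * c) = 1 →
    kap a (2 * b) (10 * c) d + kap a (10 * b) (2 * c) d = 0 := by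
  decide

lemma kapa4 : ∀ a b c d : ZMod 4, a * d - b * (20 * c) = 1 →
    kap a (2 * b) (10 * c) d + kap a (10 * b) (2 * c) d = 0 := by
  decide

lemma kap_20 {a b c d : ℤ} (h : a * d - b * (20 * c) = 1) :
    (12 : ℤ) ∣ kap a (2 * b) (10 * c) d + kap a (10 * b) (2 * c) d := by
  apply dvd12
  · have := (kapa3 a b c d (by exact_mod_cast congrArg (Int.cast : ℤ → ZMod 3) h))
    push_cast [cast_kap]
    rw [← this]
  · have := (kapa4 a b c d (by exact_mod_cast congrArg (Int.cast : ℤ → ZMod 4) h))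
    push_cast [cast_kap]
    rw [← this]

lemma e20_slash {γ : SL(2, ℤ)} (hγ : γ ∈ Gamma0 20) : e20 ∣[(2 : ℤ)] γ = e20 := by
  obtain ⟨a, b, c, d, h, rfl⟩ := exists_mkSL γ
  rw [mkSL_mem] at hγ
  obtain ⟨c, rfl⟩ := hγ
  funext z
  rw [ModularForm.SL_slash_apply, e20_eq, e20_eq, mkSL_smul, mkSL_denom]
  have h20 : a * d - b * (20 * c) = 1 := by push_cast at h; linarith
  have h' : a * d - (2 * b) * (10 * c) = 1 := by linarith
  have h'' : a * d - (10 * b) * (2 * c) = 1 := by linarith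
  have him : 0 < ((2 : ℂ) * z).im := im_mul_nat z.im_pos (n := 2) (by norm_num)
  have him' : 0 < ((10 : ℂ) * z).im := im_mul_nat z.im_pos (n := 10) (by norm_num)
  have h0 := (im_moebius h z.im_pos).2
  have h1 := G_moebius h' him
  have h2 := G_moebius h'' him'
  have e1 : (2 : ℂ) * ((a * z + b) / (((((20 : ℕ) : ℤ) * c : ℤ) : ℂ) * z + d)) =
      (a * (2 * z) + ((2 * b : ℤ) : ℂ)) / (((10 * c : ℤ) : ℂ) * (2 * z) + d) := by
    push_cast
    rw [← mul_div_assoc]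
    congr 1 <;> ring
  have e1' : (10 : ℂ) * ((a * z + b) / (((((20 : ℕ) : ℤ) * c : ℤ) : ℂ) * z + d)) =
      (a * (10 * z) + ((10 * b : ℤ) : ℂ)) / (((2 * c : ℤ) : ℂ) * (10 * z) + d) := by
    push_cast
    rw [← mul_div_assoc]
    congr 1 <;> ring
  rw [e1, h1, e1', h2]
  have e2 : ze ^ (kap a (2 * b) (10 * c) d) * ze ^ (kap a (10 * b) (2 * c) d) = 1 := by
    rw [← zpow_add₀ ze_ne]
    have h3 := kap_20 h20
    have h4 := ze_congr (m := kap a (2 * b) (10 * c) d + kap a (10 * b) (2 * c) d) (n := 0)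
      (by rw [sub_zero]; exact_mod_cast h3)
    rw [h4, zpow_zero]
  have e3 : ((10 * c : ℤ) : ℂ) * (2 * z) + d = (((((20 : ℕ) : ℤ) * c : ℤ) : ℂ)) * z + d := by
    push_cast; ring
  have e3' : ((2 * c : ℤ) : ℂ) * (10 * z) + d = (((((20 : ℕ) : ℤ) * c : ℤ) : ℂ)) * z + d := by
    push_cast; ring
  rw [e3, e3']
  set X := ((((((20 : ℕ) : ℤ) * c : ℤ) : ℂ)) * (z : ℂ) + d) with hX
  have e4 : X * X * X ^ (-2 : ℤ) = 1 := by
    rw [zpow_neg, ← sq]
    exact mul_inv_cancel₀ (pow_ne_zero 2 h0)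
  linear_combination (G (2 * z) * G (10 * z) * (X * X * X ^ (-2 : ℤ))) * e2 +
    (G (2 * z) * G (10 * z)) * e4

lemma e20_holo : MDifferentiable (modelWithCornersSelf ℂ ℂ) (modelWithCornersSelf ℂ ℂ) e20 := by
  rw [UpperHalfPlane.mdifferentiable_iff]
  have h1 : DifferentiableOn ℂ (fun w : ℂ => ModularForm.eta (2 * w) ^ 2 *
      ModularForm.eta (10 * w) ^ 2) {z : ℂ | 0 < z.im} := by
    intro w hw
    have hw' : 0 < w.im := hw
    have him2 : 0 < ((2 : ℂ) * w).im := im_mul_nat hw' (n := 2) (by norm_num)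
    have him : 0 < ((10 : ℂ) * w).im := im_mul_nat hw' (n := 10) (by norm_num)
    have h2 := ModularForm.differentiableAt_eta_of_mem_upperHalfPlaneSet
      (show (2 : ℂ) * w ∈ upperHalfPlaneSet from him2)
    have h3 := ModularForm.differentiableAt_eta_of_mem_upperHalfPlaneSet
      (show (10 : ℂ) * w ∈ upperHalfPlaneSet from him)
    have h4 : DifferentiableAt ℂ (fun w : ℂ => ModularForm.eta (10 * w)) w :=
      DifferentiableAt.comp w h3 (by fun_prop)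
    have h5 : DifferentiableAt ℂ (fun w : ℂ => ModularForm.eta (2 * w)) w :=
      DifferentiableAt.comp w h2 (by fun_prop)
    exact ((h5.pow 2).mul (h4.pow 2)).differentiableWithinAt
  refine h1.congr fun w hw => ?_
  simp only [Function.comp_apply]
  rw [e20_eq, ofComplex_apply_of_im_pos hw]
  rfl

/-- the discriminant as a function on `ℂ` -/
noncomputable def DD (w : ℂ) : ℂ := ModularForm.eta w ^ 24

lemma DD_eq (w : ℂ) : DD w = G w ^ 12 := by
  unfold DD G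
  ring

lemma DD_moebius {a b c d : ℤ} (h : a * d - b * c = 1) {w : ℂ} (hw : 0 < w.im) :
    DD ((a * w + b) / (c * w + d)) = ((c : ℂ) * w + d) ^ 12 * DD w := by
  rw [DD_eq, DD_eq, G_moebius h hw, mul_pow, mul_pow]
  have h1 : (ze ^ (kap a b c d)) ^ 12 = 1 := by
    rw [← zpow_natCast, ← zpow_mul, mul_comm, zpow_mul]
    have := ze_12
    norm_num
    rw [show ze ^ 12 = ze ^ (12 : ℤ) from (zpow_natCast ze 12).symm, this, one_zpow]
  rw [h1, one_mul]

/-- the behaviour of `Δ(nz)` at a cusp -/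
lemma DD_cusp {a b c d n α δ c' : ℤ} (h : a * d - b * c = 1) (hα : 0 < α) (hδ : 0 < δ)
    (hn : n = α * δ) (hc : c = α * c') (hco : IsCoprime δ c') :
    ∃ β : ℤ, ∀ z : ℂ, 0 < z.im → DD (n * ((a * z + b) / (c * z + d))) * (δ : ℂ) ^ 12 =
      ((c : ℂ) * z + d) ^ 12 * DD ((α * z + β) / δ) := by
  have h1 : IsCoprime a c' := ⟨d, -(b * α), by rw [hc] at h; linear_combination h⟩
  obtain ⟨u, v, huv⟩ := (hco.mul_left h1)
  -- u * (δ * a) + v * c' = 1
  refine ⟨u * (n * b) + v * d, fun z hz => ?_⟩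
  have hdet : (δ * a) * u - (-v) * c' = 1 := by linear_combination huv
  have hδ' : (0 : ℝ) < δ := by exact_mod_cast hδ
  have hα' : (0 : ℝ) < α := by exact_mod_cast hα
  have hδ0 : (δ : ℂ) ≠ 0 := by exact_mod_cast hδ.ne'
  have him : 0 < ((α * z + ((u * (n * b) + v * d : ℤ) : ℂ)) / δ).im := by
    have : ((α * z + ((u * (n * b) + v * d : ℤ) : ℂ)) / δ) =
        ((δ⁻¹ : ℝ) : ℂ) * (((α : ℝ) : ℂ) * z + (((u * (n * b) + v * d : ℤ) : ℝ) : ℂ)) := by
      push_cast; field_simp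
    rw [this, Complex.im_ofReal_mul, Complex.add_im, Complex.im_ofReal_mul, Complex.ofReal_im,
      add_zero]
    positivity
  have h0 := (im_moebius h hz).2
  have h2 := DD_moebius hdet him
  have e1 : ((c' : ℂ) * ((α * z + ((u * (n * b) + v * d : ℤ) : ℂ)) / δ) + u) * δ = c * z + d := by
    rw [add_mul, mul_assoc, div_mul_cancel₀ _ hδ0]
    have e2 : c' * (u * (n * b) + v * d) + u * δ = d := by
      rw [hn]
      rw [hc] at h
      linear_combination d * huv - (u * δ) * h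
    have e3 : ((c' * (u * (n * b) + v * d) + u * δ : ℤ) : ℂ) = d := by rw [e2]
    rw [hc]
    push_cast at e3 ⊢
    linear_combination e3
  have e4 : (((δ * a : ℤ) : ℂ) * ((α * z + ((u * (n * b) + v * d : ℤ) : ℂ)) / δ) + ((-v : ℤ) : ℂ)) * δ =
      n * (a * z + b) := by
    rw [add_mul, mul_assoc, div_mul_cancel₀ _ hδ0]
    have e2 : (δ * a) * (u * (n * b) + v * d) + (-v) * δ = n * b := by
      rw [hn]
      rw [hc] at h
      linear_combination (α * δ * b) * huv + (δ * v) * h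
    have e3 : (((δ * a) * (u * (n * b) + v * d) + (-v) * δ : ℤ) : ℂ) = ((n * b : ℤ) : ℂ) := by rw [e2]
    rw [hn] at e3 ⊢
    push_cast at e3 ⊢
    linear_combination e3
  have e5 : (((δ * a : ℤ) : ℂ) * ((α * z + ((u * (n * b) + v * d : ℤ) : ℂ)) / δ) + ((-v : ℤ) : ℂ)) /
      ((c' : ℂ) * ((α * z + ((u * (n * b) + v * d : ℤ) : ℂ)) / δ) + u) =
      n * ((a * z + b) / (c * z + d)) := by
    rw [← mul_div_mul_right _ _ hδ0, e1, e4, mul_div_assoc]
  rw [e5] at h2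
  rw [h2, ← e1, mul_pow]
  ring

variable (g : CuspForm (Gamma0 20 : Subgroup (GL (Fin 2) ℝ)) 2)

lemma g_bound {a b c d : ℤ} (h : a * d - b * c = 1) (m : ℕ) (hm : 0 < m)
    (hc : (20 : ℤ) ∣ c * c * m) : ((g : ℍ → ℂ) ∣[(2 : ℤ)] mkSL a b c d h) =O[atImInfty]
    (fun τ : ℍ => Real.exp (-2 * Real.pi * τ.im / m)) := by
  have hmem : (m : ℝ) ∈ (ConjAct.toConjAct (mkSL a b c d h : GL (Fin 2) ℝ)⁻¹ •
      (Gamma0 20 : Subgroup (GL (Fin 2) ℝ))).strictPeriods := by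
    rw [Subgroup.mem_strictPeriods_iff, map_inv, Subgroup.mem_inv_pointwise_smul_iff,
      ConjAct.toConjAct_smul]
    have h' : (1 - a * c * m) * (1 + a * c * m) - (a * a * m) * (-(c * c * m)) = 1 := by ring
    refine ⟨mkSL (1 - a * c * m) (a * a * m) (-(c * c * m)) (1 + a * c * m) h',
      (mkSL_mem _ _ _ _ _ 20).2 ((dvd_neg).2 hc), ?_⟩
    rw [eq_mul_inv_iff_mul_eq]
    apply Units.ext
    rw [Units.val_mul, Units.val_mul]
    have e0 : ((Matrix.SpecialLinearGroup.mapGL ℝ (mkSL (1 - a * c * m) (a * a * m) (-(c * c * m))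
      (1 + a * c * m) h') : GL (Fin 2) ℝ) : Matrix (Fin 2) (Fin 2) ℝ) =
      !![((1 - a * c * m : ℤ) : ℝ), ((a * a * m : ℤ) : ℝ); ((-(c * c * m) : ℤ) : ℝ),
        ((1 + a * c * m : ℤ) : ℝ)] := mkSL_GL _ _ _ _ h'
    have e1 : ((mkSL a b c d h : GL (Fin 2) ℝ) : Matrix (Fin 2) (Fin 2) ℝ) =
      !![(a : ℝ), (b : ℝ); (c : ℝ), (d : ℝ)] := mkSL_GL a b c d h
    rw [e0, e1]
    have h2 : (a : ℝ) * d - b * c = 1 := by exact_mod_cast h
    ext i j
    fin_cases i <;> fin_cases j <;> simp [Matrix.mul_apply, Fin.sum_univ_two]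
    · ring
    · linear_combination (a * m : ℝ) * h2
    · ring
    · linear_combination (c * m : ℝ) * h2
  have h := CuspFormClass.exp_decay_atImInfty (k := 2)
    (h := m) (CuspForm.translate g (mkSL a b c d h : GL (Fin 2) ℝ)) (by exact_mod_cast hm) hmem
  exact h

/-- lower bound of `Δ` along `(αz+β)/δ` -/
lemma DD_lower (α β δ : ℤ) (hα : 0 < α) (hδ : 0 < δ) :
    (fun z : ℍ => Real.exp (-2 * Real.pi * (((α : ℝ) / δ) * z.im))) =O[atImInfty]
      (fun z : ℍ => DD ((α * (z : ℂ) + β) / δ)) := by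
  have hα' : (0 : ℝ) < α := by exact_mod_cast hα
  have hδ' : (0 : ℝ) < δ := by exact_mod_cast hδ
  have him : ∀ z : ℍ, ((α * (z : ℂ) + β) / δ).im = ((α : ℝ) / δ) * z.im := by
    intro z
    have e : ((α * (z : ℂ) + β) / δ) = ((δ⁻¹ : ℝ) : ℂ) * (((α : ℝ) : ℂ) * z + ((β : ℝ) : ℂ)) := by
      push_cast; field_simp
    rw [e, Complex.im_ofReal_mul, Complex.add_im, Complex.im_ofReal_mul, Complex.ofReal_im,
      add_zero]
    change _ = (α : ℝ) / δ * (z : ℂ).im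
    field_simp
  have hpos : ∀ z : ℍ, 0 < ((α * (z : ℂ) + β) / δ).im := by
    intro z
    rw [him]
    have := z.im_pos
    positivity
  let pt : ℍ → ℍ := fun z => ⟨(α * (z : ℂ) + β) / δ, hpos z⟩
  have ht : Tendsto pt atImInfty atImInfty := by
    rw [atImInfty, tendsto_comap_iff]
    have : (UpperHalfPlane.im ∘ pt) = fun z => ((α : ℝ) / δ) * z.im := by
      funext z; exact him z
    rw [this]
    exact (tendsto_comap).const_mul_atTop (by positivity)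
  have h := ModularForm.exp_isBigO_discriminant.comp_tendsto ht
  refine h.congr_left fun z => ?_
  simp only [Function.comp_apply]
  have : (pt z).im = ((α : ℝ) / δ) * z.im := him z
  rw [this]

lemma quot_bdd {a b c d α₁ δ₁ c₁ α₂ δ₂ c₂ : ℤ} (h : a * d - b * c = 1) (m : ℕ) (hm : 0 < m)
    (hc : (20 : ℤ) ∣ c * c * m) (hα₁ : 0 < α₁) (hδ₁ : 0 < δ₁) (hn₁ : 2 = α₁ * δ₁) (hc₁ : c = α₁ * c₁)
    (hco₁ : IsCoprime δ₁ c₁) (hα₂ : 0 < α₂) (hδ₂ : 0 < δ₂) (hn₂ : 10 = α₂ * δ₂)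
    (hc₂ : c = α₂ * c₂) (hco₂ : IsCoprime δ₂ c₂)
    (hsum : (12 : ℝ) / m = (α₁ : ℝ) / δ₁ + (α₂ : ℝ) / δ₂) :
    (fun z : ℍ => ((g : ℍ → ℂ) ∣[(2 : ℤ)] mkSL a b c d h) z / (e20 ∣[(2 : ℤ)] mkSL a b c d h) z)
      =O[atImInfty] (fun _ : ℍ => (1 : ℝ)) := by
  obtain ⟨β₁, hβ₁⟩ := DD_cusp h hα₁ hδ₁ hn₁ hc₁ hco₁
  obtain ⟨β₂, hβ₂⟩ := DD_cusp h hα₂ hδ₂ hn₂ hc₂ hco₂
  have hδ₁0 : (δ₁ : ℂ) ≠ 0 := by exact_mod_cast hδ₁.ne'
  have hδ₂0 : (δ₂ : ℂ) ≠ 0 := by exact_mod_cast hδ₂.ne'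
  -- the bound of the twelfth power of the numerator
  have h1 : (fun z : ℍ => ((g : ℍ → ℂ) ∣[(2 : ℤ)] mkSL a b c d h) z ^ 12) =O[atImInfty]
      (fun z : ℍ => Real.exp (-2 * Real.pi * (((α₁ : ℝ) / δ₁) * z.im)) *
        Real.exp (-2 * Real.pi * (((α₂ : ℝ) / δ₂) * z.im))) := by
    refine ((g_bound g h m hm hc).pow 12).congr_right fun z => ?_
    rw [← Real.exp_nat_mul, ← Real.exp_add]
    congr 1
    push_cast
    linear_combination (-2 * Real.pi * z.im) * hsum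
  have h3 := (DD_lower α₁ β₁ δ₁ hα₁ hδ₁).mul (DD_lower α₂ β₂ δ₂ hα₂ hδ₂)
  have h4 : (fun z : ℍ => DD ((α₁ * (z : ℂ) + β₁) / δ₁) * DD ((α₂ * (z : ℂ) + β₂) / δ₂))
      =O[atImInfty] (fun z : ℍ => (e20 ∣[(2 : ℤ)] mkSL a b c d h) z ^ 12) := by
    refine IsBigO.of_bound (‖(δ₁ : ℂ) ^ 12 * (δ₂ : ℂ) ^ 12‖) (Eventually.of_forall fun z => ?_)
    rw [← norm_mul]
    refine le_of_eq (congrArg _ ?_)
    have e1 := hβ₁ z z.im_pos
    have e2 := hβ₂ z z.im_pos
    have h0 := (im_moebius h z.im_pos).2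
    rw [ModularForm.SL_slash_apply, e20_eq, mkSL_smul, mkSL_denom, mul_pow, mul_pow]
    have e3 : G (2 * ((a * (z : ℂ) + b) / (c * z + d))) ^ 12 =
        DD (((2 : ℤ) : ℂ) * ((a * (z : ℂ) + b) / (c * z + d))) := by
      rw [DD_eq]; norm_num
    have e4 : G (10 * ((a * (z : ℂ) + b) / (c * z + d))) ^ 12 =
        DD (((10 : ℤ) : ℂ) * ((a * (z : ℂ) + b) / (c * z + d))) := by
      rw [DD_eq]; norm_num
    rw [e3, e4]
    have e5 : (((c : ℂ) * z + d) ^ (-2 : ℤ)) ^ 12 * (((c : ℂ) * z + d) ^ 12 * ((c : ℂ) * z + d) ^ 12)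
        = 1 := by
      rw [zpow_neg, inv_pow, show (((c : ℂ) * z + d) ^ (2 : ℤ)) = ((c : ℂ) * z + d) ^ 2 from
        zpow_ofNat _ 2]
      field_simp
    generalize DD ((α₁ * (z : ℂ) + β₁) / δ₁) = A at *
    generalize DD ((α₂ * (z : ℂ) + β₂) / δ₂) = B at *
    generalize DD (((2 : ℤ) : ℂ) * ((a * (z : ℂ) + b) / (c * z + d))) = C at *
    generalize DD (((10 : ℤ) : ℂ) * ((a * (z : ℂ) + b) / (c * z + d))) = D at *
    generalize (((c : ℂ) * z + d) ^ (-2 : ℤ)) ^ 12 = E at *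
    generalize ((c : ℂ) * z + d) = F at *
    linear_combination (-(A * B)) * e5 - E * (F ^ 12 * A) * e2 - E * (D * δ₂ ^ 12) * e1
  have h7 := (h1.trans h3).trans h4
  have hne : ∀ z : ℍ, (e20 ∣[(2 : ℤ)] mkSL a b c d h) z ≠ 0 := by
    intro z
    rw [ModularForm.SL_slash_apply]
    exact mul_ne_zero (e20_ne _) (zpow_ne_zero _ (denom_ne_zero _ z))
  have h8 : (fun z : ℍ => (((g : ℍ → ℂ) ∣[(2 : ℤ)] mkSL a b c d h) z /
      (e20 ∣[(2 : ℤ)] mkSL a b c d h) z) ^ 12) =O[atImInfty] (fun _ : ℍ => (1 : ℝ) ^ 12) := by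
    have h9 := h7.mul (isBigO_refl (fun z : ℍ => ((e20 ∣[(2 : ℤ)] mkSL a b c d h) z ^ 12)⁻¹) atImInfty)
    refine (h9.congr (fun z => ?_) (fun z => ?_) (g₂ := fun _ => (1 : ℂ))).trans
      (isBigO_const_const (1 : ℂ) (by norm_num) _)
    · rw [div_pow, div_eq_mul_inv]
    · exact mul_inv_cancel₀ (pow_ne_zero _ (hne z))
  exact h8.of_pow (by norm_num)

lemma coprime_of_prime {p c : ℤ} (hp : Prime p) (h : ¬ p ∣ c) : IsCoprime p c :=
  (Prime.coprime_iff_not_dvd hp).2 h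

lemma quot_bdd' (γ : SL(2, ℤ)) :
    (fun z : ℍ => ((g : ℍ → ℂ) ∣[(2 : ℤ)] γ) z / (e20 ∣[(2 : ℤ)] γ) z) =O[atImInfty]
      (fun _ : ℍ => (1 : ℝ)) := by
  obtain ⟨a, b, c, d, h, rfl⟩ := exists_mkSL γ
  have p2 : Prime (2 : ℤ) := Int.prime_two
  have p5 : Prime (5 : ℤ) := by norm_num
  by_cases h2 : (2 : ℤ) ∣ c
  · by_cases h5 : (5 : ℤ) ∣ c
    · obtain ⟨t, rfl⟩ : (10 : ℤ) ∣ c := by omega
      refine quot_bdd g h 1 one_pos ⟨5 * t * t, by push_cast; ring⟩ (α₁ := 2) (δ₁ := 1) (c₁ := 5 * t)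
        (α₂ := 10) (δ₂ := 1) (c₂ := t) (by norm_num) (by norm_num) (by norm_num) (by ring)
        isCoprime_one_left (by norm_num) (by norm_num) (by norm_num) (by ring)
        isCoprime_one_left (by norm_num)
    · obtain ⟨t, rfl⟩ := h2
      have h5' : ¬ (5 : ℤ) ∣ t := fun h => h5 (h.mul_left 2)
      refine quot_bdd g h 5 (by norm_num) ⟨t * t, by push_cast; ring⟩ (α₁ := 2) (δ₁ := 1) (c₁ := t)
        (α₂ := 2) (δ₂ := 5) (c₂ := t) (by norm_num) (by norm_num) (by norm_num) (by ring)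
        isCoprime_one_left (by norm_num) (by norm_num) (by norm_num) (by ring)
        (coprime_of_prime p5 h5') (by norm_num)
  · by_cases h5 : (5 : ℤ) ∣ c
    · obtain ⟨t, rfl⟩ := h5
      have h2' : ¬ (2 : ℤ) ∣ t := fun h => h2 (h.mul_left 5)
      have h2'' : ¬ (2 : ℤ) ∣ 5 * t := h2
      refine quot_bdd g h 4 (by norm_num) ⟨5 * t * t, by push_cast; ring⟩ (α₁ := 1) (δ₁ := 2)
        (c₁ := 5 * t) (α₂ := 5) (δ₂ := 2) (c₂ := t) (by norm_num) (by norm_num) (by norm_num)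
        (by ring) (coprime_of_prime p2 h2'') (by norm_num) (by norm_num) (by norm_num) (by ring)
        (coprime_of_prime p2 h2') (by norm_num)
    · refine quot_bdd g h 20 (by norm_num) ⟨c * c, by push_cast; ring⟩ (α₁ := 1) (δ₁ := 2)
        (c₁ := c) (α₂ := 1) (δ₂ := 10) (c₂ := c) (by norm_num) (by norm_num) (by norm_num)
        (by ring) (coprime_of_prime p2 h2) (by norm_num) (by norm_num) (by norm_num) (by ring)
        ?_ (by norm_num)
      rw [show (10 : ℤ) = 2 * 5 by norm_num]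
      exact (coprime_of_prime p2 h2).mul_left (coprime_of_prime p5 h5)

/-- the quotient as a modular form of weight `0` -/
noncomputable def quotForm : ModularForm (Gamma0 20 : Subgroup (GL (Fin 2) ℝ)) 0 where
  toFun := fun z => g z / e20 z
  slash_action_eq' := by
    rintro _ ⟨γ, hγ, rfl⟩
    change (fun z => g z / e20 z) ∣[(0 : ℤ)] γ = _
    funext z
    rw [ModularForm.SL_slash_apply, neg_zero, zpow_zero, mul_one]
    have h1 := congrFun (SlashInvariantFormClass.slash_action_eq g (γ : GL (Fin 2) ℝ) ⟨γ, hγ, rfl⟩) z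
    have h2 := congrFun (e20_slash hγ) z
    rw [← ModularForm.SL_slash, ModularForm.SL_slash_apply] at h1
    rw [ModularForm.SL_slash_apply] at h2
    rw [← h1, ← h2]
    have h3 : denom (γ : GL (Fin 2) ℝ) z ^ (-2 : ℤ) ≠ 0 := zpow_ne_zero _ (denom_ne_zero _ z)
    rw [mul_div_mul_right _ _ h3]
  holo' := by
    have h1 := g.holo'
    have h2 := e20_holo
    rw [UpperHalfPlane.mdifferentiable_iff] at h1 h2 ⊢
    exact h1.div h2 fun w _ => e20_ne _
  bdd_at_cusps' := by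
    intro c hc
    rw [Subgroup.IsArithmetic.isCusp_iff_isCusp_SL2Z] at hc
    rw [OnePoint.isBoundedAt_iff_forall_SL2Z hc]
    intro γ _
    have h1 := quot_bdd' g γ
    refine h1.congr_left fun z => ?_
    rw [ModularForm.SL_slash_apply, ModularForm.SL_slash_apply, ModularForm.SL_slash_apply,
      neg_zero, zpow_zero, mul_one]
    have h3 : denom (γ : GL (Fin 2) ℝ) z ^ (-2 : ℤ) ≠ 0 := zpow_ne_zero _ (denom_ne_zero _ z)
    rw [mul_div_mul_right _ _ h3]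

theorem s_dim : S_DIM := by
  intro g
  obtain ⟨c, hc⟩ := ModularForm.eq_const_of_weight_zero (quotForm g)
  refine ⟨c, fun z => ?_⟩
  have h1 := congrFun hc z
  change g z / e20 z = c at h1
  change g z = c * e20 z
  rw [← h1, div_mul_cancel₀ _ (e20_ne z)]

end Pool.Agent.W247.V20
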